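import Pool.Agent.Helper39.ST.Left

/-!
Lower bound for the bidimension from point derivations.
-/

set_option autoImplicit false

open scoped Topology

namespace Pool.Agent.Helper39.ST

variable {A : Type} [CommRing A] [Algebra ℂ A] [TopologicalSpace A]

/-- the extension of the bimodule `P` by the character `ε`, defined by a point derivation -/
noncomputable def extBi (ε D : A →L[ℂ] ℂ) (hε : ∀ a b, ε (a * b) = ε a * ε b)
    (hD : ∀ a b, D (a * b) = ε a * D b + D a * ε b) (P : BiMod A) (e : P.V →L[ℂ] ℂ)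
    (hl : ∀ a p, e (P.l a p) = ε a * e p) (hr : ∀ a p, e (P.r a p) = ε a * e p) : BiMod A where
  V := ℂ × P.V
  l := LinearMap.mk₂ ℂ (fun a v => (ε a * v.1 + D a * e v.2, P.l a v.2))
    (by intro a b v; ext <;> simp; ring)
    (by intro c a v; ext <;> simp; ring)
    (by intro a v w; ext <;> simp; ring)
    (by intro c a v; ext <;> simp; ring)
  r := LinearMap.mk₂ ℂ (fun a v => (ε a * v.1, P.r a v.2))
    (by intro a b v; ext <;> simp; ring)
    (by intro c a v; ext <;> simp; ring)
    (by intro a v w; ext <;> simp; ring)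
    (by intro c a v; ext <;> simp; ring)
  l_mul := by
    intro a b v
    simp only [LinearMap.mk₂_apply, hε, hD, hl, P.l_mul]
    ext
    · ring
    · rfl
  r_mul := by
    intro a b v
    simp only [LinearMap.mk₂_apply, hε, P.r_mul]
    ext
    · ring
    · rfl
  l_r := by
    intro a b v
    simp only [LinearMap.mk₂_apply, hr, P.l_r]
    ext
    · ring
    · rfl
  continuous_l := by
    simp only [LinearMap.mk₂_apply]
    refine Continuous.prodMk (by fun_prop) ?_
    exact P.continuous_l.comp (continuous_fst.prodMk (continuous_snd.comp continuous_snd))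
  continuous_r := by
    simp only [LinearMap.mk₂_apply]
    refine Continuous.prodMk (by fun_prop) ?_
    exact P.continuous_r.comp (continuous_fst.prodMk (continuous_snd.comp continuous_snd))

/-- lifting a functional through a point derivation -/
theorem step_bi (ε D : A →L[ℂ] ℂ) (hε : ∀ a b, ε (a * b) = ε a * ε b)
    (hD : ∀ a b, D (a * b) = ε a * D b + D a * ε b) (P : BiMod A) (hP : P.IsPolynormed)
    (hP' : P.IsProjective) (e : P.V →L[ℂ] ℂ) (hl : ∀ a p, e (P.l a p) = ε a * e p)
    (hr : ∀ a p, e (P.r a p) = ε a * e p) :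
    ∃ g : P.V →L[ℂ] ℂ, (∀ a p, g (P.l a p) = ε a * g p + D a * e p) ∧
      ∀ a p, g (P.r a p) = ε a * g p := by
  obtain ⟨t, ht, ht'⟩ := hP' (extBi ε D hε hD P e hl hr) (polynormed_prod polynormed_complex hP)
    (ContinuousLinearMap.snd ℂ ℂ P.V) (fun a x => ⟨rfl, rfl⟩)
    ⟨ContinuousLinearMap.inr ℂ ℂ P.V, fun p => rfl⟩
  refine ⟨(ContinuousLinearMap.fst ℂ ℂ P.V).comp t, fun a p => ?_, fun a p => ?_⟩
  · have h1 := congrArg Prod.fst (ht a p).1
    have h2 : (t p).2 = p := ht' p
    have h3 : (t (P.l a p)).1 = ε a * (t p).1 + D a * e (t p).2 := h1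
    rw [h2] at h3
    exact h3
  · exact congrArg Prod.fst (ht a p).2

theorem bi_lower [IsTopologicalRing A] [ContinuousSMul ℂ A] (ε : A →L[ℂ] ℂ)
    (hε : ∀ a b, ε (a * b) = ε a * ε b) (D : ℕ → A →L[ℂ] ℂ)
    (hD : ∀ i a b, D i (a * b) = ε a * D i b + D i a * ε b) {n : ℕ} (a : Fin n → A)
    (hdet : (Matrix.of fun r c : Fin n => D (n - 1 - r) (a c)).det ≠ 0) (m : ℕ)
    (h : (unitization A).HasResolution m) : n ≤ m := by
  by_contra hlt
  push Not at hlt
  obtain ⟨P, aug, d, s', s, hP, haug, hd, hdd0, hdd, hs', hs0, hs, hlen⟩ := h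
  let aug' : (P 0).V →L[ℂ] A × ℂ := aug
  have haugl : ∀ a p, aug' ((P 0).l a p) = (a * (aug' p).1 + (aug' p).2 • a, 0) :=
    fun a p => (haug a p).1
  have haugr : ∀ a p, aug' ((P 0).r a p) = ((aug' p).1 * a + (aug' p).2 • a, 0) :=
    fun a p => (haug a p).2
  -- the functionals
  let E : ℕ → Type := fun i => {e : (P i).V →L[ℂ] ℂ //
    (∀ a p, e ((P i).l a p) = ε a * e p) ∧ (∀ a p, e ((P i).r a p) = ε a * e p) ∧
      ∀ q, e (d i q) = 0}
  let G : ∀ i (x : E i), (P i).V →L[ℂ] ℂ := fun i x =>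
    Classical.choose (step_bi ε (D i) hε (hD i) (P i) (hP i).1 (hP i).2 x.1 x.2.1 x.2.2.1)
  have hG : ∀ i (x : E i), (∀ a p, G i x ((P i).l a p) = ε a * G i x p + D i a * x.1 p) ∧
      ∀ a p, G i x ((P i).r a p) = ε a * G i x p :=
    fun i x => Classical.choose_spec
      (step_bi ε (D i) hε (hD i) (P i) (hP i).1 (hP i).2 x.1 x.2.1 x.2.2.1)
  let e0' : (P 0).V →L[ℂ] ℂ :=
    (ε.comp (ContinuousLinearMap.fst ℂ A ℂ) + ContinuousLinearMap.snd ℂ A ℂ).comp aug'
  have he0' : ∀ p, e0' p = ε (aug' p).1 + (aug' p).2 := fun p => rfl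
  let e0 : E 0 := ⟨e0', fun a p => by
      rw [he0', he0', haugl]
      simp only [map_add, hε, map_smul, smul_eq_mul]
      ring, fun a p => by
      rw [he0', he0', haugr]
      simp only [map_add, hε, map_smul, smul_eq_mul]
      ring, fun q => by
      rw [he0']
      have : aug' (d 0 q) = 0 := hdd0 q
      rw [this]
      simp⟩
  let eS : ∀ i, E i → E (i + 1) := fun i x => ⟨(G i x).comp (d i), by
    refine ⟨fun a p => ?_, fun a p => ?_, fun q => ?_⟩
    · show G i x (d i _) = _ * G i x (d i p)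
      rw [(hd i a p).1, (hG i x).1, x.2.2.2, mul_zero, add_zero]
    · show G i x (d i _) = _ * G i x (d i p)
      rw [(hd i a p).2, (hG i x).2]
    · show G i x (d i (d (i + 1) q)) = 0
      rw [hdd, map_zero]⟩
  let e : ∀ i, E i := fun i => Nat.rec e0 eS i
  have hexact0 : ∀ p, aug p = 0 → ∃ q, d 0 q = p := fun p hp =>
    ⟨s 0 p, by have := hs0 p; rwa [hp, map_zero, add_zero] at this⟩
  have hexact : ∀ i p, d i p = 0 → ∃ q, d (i + 1) q = p := fun i p hp =>
    ⟨s (i + 1) p, by have := hs i p; rwa [hp, map_zero, add_zero] at this⟩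
  obtain ⟨F, -, hF⟩ := koszul (J := Fin n) (X := (unitization A).V) (fun i => (P i).V)
    (fun i => (d i).toLinearMap.toAddMonoidHom) aug.toLinearMap.toAddMonoidHom hexact0 hexact
    (fun i j => ((P i).l (a j) - (P i).r (a j)).toAddMonoidHom)
    (fun i j k p => by
      show ((P i).l (a j) - (P i).r (a j)) (((P i).l (a k) - (P i).r (a k)) p)
        = ((P i).l (a k) - (P i).r (a k)) (((P i).l (a j) - (P i).r (a j)) p)
      simp only [LinearMap.sub_apply, map_sub]
      rw [← (P i).l_mul, ← (P i).l_mul, ← (P i).r_mul, ← (P i).r_mul, (P i).l_r, (P i).l_r,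
        mul_comm (a j) (a k)]
      abel)
    (fun i j p => by
      show d i (((P (i + 1)).l (a j) - (P (i + 1)).r (a j)) p)
        = ((P i).l (a j) - (P i).r (a j)) (d i p)
      rw [LinearMap.sub_apply, LinearMap.sub_apply, map_sub, (hd i (a j) p).1, (hd i (a j) p).2])
    (fun j p => by
      show aug' (((P 0).l (a j) - (P 0).r (a j)) p) = 0
      rw [LinearMap.sub_apply, map_sub, haugl, haugr, mul_comm, sub_self])
    (fun i => (e i).1.toLinearMap.toAddMonoidHom) (fun i => (G i (e i)).toLinearMap.toAddMonoidHom)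
    (fun i j => D i (a j))
    (fun i q => rfl)
    (fun i j p => by
      show G i (e i) (((P i).l (a j) - (P i).r (a j)) p) = _
      rw [LinearMap.sub_apply, map_sub, (hG i (e i)).1, (hG i (e i)).2, add_sub_cancel_left]
      rfl)
    (s' ((0, 1) : A × ℂ))
    (by
      show e0' (s' ((0, 1) : A × ℂ)) = 1
      have : aug' (s' ((0, 1) : A × ℂ)) = (0, 1) := hs' ((0, 1) : A × ℂ)
      rw [he0', this]
      simp) n
  have h1 := hF id
  have := hlen n hlt
  have h2 : F id = 0 := Subsingleton.elim _ _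
  rw [h2, map_zero] at h1
  exact hdet h1.symm

end Pool.Agent.Helper39.ST
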