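import Mathlib

/-!
Relative (topological) homology of polynormed algebras: modules, bimodules, projective modules,
admissible projective resolutions, homological dimensions; the algebra of holomorphic functions on a
complex manifold.
-/

set_option autoImplicit false

open scoped Manifold ContDiff Topology

namespace Pool.Agent.Helper39.ST

/-- A topological vector space is polynormed (in the sense of the problem) if it is Hausdorff,
locally convex and complete. -/
def IsPolynormedSpace (V : Type) [AddCommGroup V] [Module ℂ V] [TopologicalSpace V]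
    [IsTopologicalAddGroup V] [ContinuousSMul ℂ V] : Prop :=
  T2Space V ∧ LocallyConvexSpace ℝ V ∧ @CompleteSpace V (IsTopologicalAddGroup.rightUniformSpace V)

section Left

variable (A : Type) [Ring A] [Algebra ℂ A] [TopologicalSpace A]

/-- A topological left module over `A` (a topological vector space with a jointly continuous bilinear
associative action of `A`; the unit of `A` need not act as the identity). -/
structure LeftMod : Type 1 where
  /-- the underlying space -/
  V : Type
  [addCommGroup : AddCommGroup V]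
  [module : Module ℂ V]
  [topologicalSpace : TopologicalSpace V]
  [isTopologicalAddGroup : IsTopologicalAddGroup V]
  [continuousSMul : ContinuousSMul ℂ V]
  /-- the action -/
  act : A →ₗ[ℂ] V →ₗ[ℂ] V
  act_mul : ∀ a b v, act (a * b) v = act a (act b v)
  continuous_act : Continuous fun p : A × V => act p.1 p.2

attribute [instance] LeftMod.addCommGroup LeftMod.module LeftMod.topologicalSpace
  LeftMod.isTopologicalAddGroup LeftMod.continuousSMul

variable {A}

/-- the module is polynormed: complete, Hausdorff, locally convex -/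
def LeftMod.IsPolynormed (X : LeftMod A) : Prop := IsPolynormedSpace X.V

/-- a continuous linear map between left modules is a morphism of modules -/
def IsHom {X Y : LeftMod A} (f : X.V →L[ℂ] Y.V) : Prop := ∀ a x, f (X.act a x) = Y.act a (f x)

/-- `P` is projective: every morphism of a polynormed module onto `P` which has a continuous linear
right inverse has a right inverse which is a morphism. -/
def LeftMod.IsProjective (P : LeftMod A) : Prop :=
  ∀ E : LeftMod A, E.IsPolynormed → ∀ f : E.V →L[ℂ] P.V, IsHom f →
    (∃ s : P.V →L[ℂ] E.V, ∀ p, f (s p) = p) → ∃ t : P.V →L[ℂ] E.V, IsHom t ∧ ∀ p, f (t p) = p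

/-- `X` has an admissible projective resolution `0 ← X ← P 0 ← P 1 ← ...` with `P k = 0` for
`k > m`. -/
def LeftMod.HasResolution (X : LeftMod A) (m : ℕ) : Prop :=
  ∃ (P : ℕ → LeftMod A) (aug : (P 0).V →L[ℂ] X.V) (d : ∀ i, (P (i + 1)).V →L[ℂ] (P i).V)
    (s' : X.V →L[ℂ] (P 0).V) (s : ∀ i, (P i).V →L[ℂ] (P (i + 1)).V),
    (∀ i, (P i).IsPolynormed ∧ (P i).IsProjective) ∧
    -- a complex of modules
    IsHom aug ∧ (∀ i, IsHom (d i)) ∧ (∀ q, aug (d 0 q) = 0) ∧ (∀ i q, d i (d (i + 1) q) = 0) ∧
    -- it splits as a complex of topological vector spaces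
    (∀ x, aug (s' x) = x) ∧ (∀ p, d 0 (s 0 p) + s' (aug p) = p) ∧
    (∀ i p, d (i + 1) (s (i + 1) p) + s i (d i p) = p) ∧
    -- its length is at most m
    ∀ i, m < i → Subsingleton (P i).V

/-- the homological dimension of a left module -/
noncomputable def LeftMod.dh (X : LeftMod A) : ℕ∞ := sInf {m : ℕ∞ | ∃ k : ℕ, m = k ∧ X.HasResolution k}

/-- irreducible modules: the action is not zero and there is no invariant subspace except `0` and
the whole space -/
def LeftMod.IsIrreducible (X : LeftMod A) : Prop :=
  (∃ a x, X.act a x ≠ 0) ∧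
    ∀ W : Submodule ℂ X.V, (∀ a, ∀ x ∈ W, X.act a x ∈ W) → W = ⊥ ∨ W = ⊤

variable (A)

/-- the global dimension: the supremum of the homological dimensions of all polynormed left
modules -/
noncomputable def dg : ℕ∞ := ⨆ X : {X : LeftMod A // X.IsPolynormed}, X.1.dh

/-- the small dimension: the supremum of the homological dimensions of all irreducible polynormed
left modules -/
noncomputable def ds : ℕ∞ := ⨆ X : {X : LeftMod A // X.IsPolynormed ∧ X.IsIrreducible}, X.1.dh

end Left

section Bi

variable (A : Type) [Ring A] [Algebra ℂ A] [TopologicalSpace A]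

/-- A topological `A`-bimodule. -/
structure BiMod : Type 1 where
  /-- the underlying space -/
  V : Type
  [addCommGroup : AddCommGroup V]
  [module : Module ℂ V]
  [topologicalSpace : TopologicalSpace V]
  [isTopologicalAddGroup : IsTopologicalAddGroup V]
  [continuousSMul : ContinuousSMul ℂ V]
  /-- the left action `l a v = a v` -/
  l : A →ₗ[ℂ] V →ₗ[ℂ] V
  /-- the right action `r a v = v a` -/
  r : A →ₗ[ℂ] V →ₗ[ℂ] V
  l_mul : ∀ a b v, l (a * b) v = l a (l b v)
  r_mul : ∀ a b v, r (a * b) v = r b (r a v)
  l_r : ∀ a b v, l a (r b v) = r b (l a v)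
  continuous_l : Continuous fun p : A × V => l p.1 p.2
  continuous_r : Continuous fun p : A × V => r p.1 p.2

attribute [instance] BiMod.addCommGroup BiMod.module BiMod.topologicalSpace
  BiMod.isTopologicalAddGroup BiMod.continuousSMul

variable {A}

/-- the bimodule is polynormed: complete, Hausdorff, locally convex -/
def BiMod.IsPolynormed (X : BiMod A) : Prop := IsPolynormedSpace X.V

/-- a continuous linear map between bimodules is a morphism of bimodules -/
def IsBiHom {X Y : BiMod A} (f : X.V →L[ℂ] Y.V) : Prop :=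
  ∀ a x, f (X.l a x) = Y.l a (f x) ∧ f (X.r a x) = Y.r a (f x)

/-- `P` is a projective bimodule. -/
def BiMod.IsProjective (P : BiMod A) : Prop :=
  ∀ E : BiMod A, E.IsPolynormed → ∀ f : E.V →L[ℂ] P.V, IsBiHom f →
    (∃ s : P.V →L[ℂ] E.V, ∀ p, f (s p) = p) → ∃ t : P.V →L[ℂ] E.V, IsBiHom t ∧ ∀ p, f (t p) = p

/-- `X` has an admissible projective bimodule resolution `0 ← X ← P 0 ← P 1 ← ...` with `P k = 0`
for `k > m`. -/
def BiMod.HasResolution (X : BiMod A) (m : ℕ) : Prop :=
  ∃ (P : ℕ → BiMod A) (aug : (P 0).V →L[ℂ] X.V) (d : ∀ i, (P (i + 1)).V →L[ℂ] (P i).V)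
    (s' : X.V →L[ℂ] (P 0).V) (s : ∀ i, (P i).V →L[ℂ] (P (i + 1)).V),
    (∀ i, (P i).IsPolynormed ∧ (P i).IsProjective) ∧
    IsBiHom aug ∧ (∀ i, IsBiHom (d i)) ∧ (∀ q, aug (d 0 q) = 0) ∧
    (∀ i q, d i (d (i + 1) q) = 0) ∧
    (∀ x, aug (s' x) = x) ∧ (∀ p, d 0 (s 0 p) + s' (aug p) = p) ∧
    (∀ i p, d (i + 1) (s (i + 1) p) + s i (d i p) = p) ∧
    ∀ i, m < i → Subsingleton (P i).V

/-- the homological dimension of a bimodule -/
noncomputable def BiMod.dh (X : BiMod A) : ℕ∞ := sInf {m : ℕ∞ | ∃ k : ℕ, m = k ∧ X.HasResolution k}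

variable (A)

/-- the unitization `A₊ = A ⊕ ℂ` as a bimodule over the topological algebra `A` -/
noncomputable def unitization [IsTopologicalRing A] [ContinuousSMul ℂ A] : BiMod A where
  V := A × ℂ
  l := LinearMap.mk₂ ℂ (fun a v => (a * v.1 + v.2 • a, 0))
    (by intro a b v; ext <;> simp [add_mul]; abel)
    (by intro c a v; ext <;> simp [smul_smul, mul_comm])
    (by intro a v w; ext <;> simp [mul_add, add_smul]; abel)
    (by intro c a v; ext <;> simp [smul_smul])
  r := LinearMap.mk₂ ℂ (fun a v => (v.1 * a + v.2 • a, 0))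
    (by intro a b v; ext <;> simp [mul_add]; abel)
    (by intro c a v; ext <;> simp [smul_smul, mul_comm])
    (by intro a v w; ext <;> simp [add_mul, add_smul]; abel)
    (by intro c a v; ext <;> simp [smul_smul])
  l_mul := by intro a b v; simp [LinearMap.mk₂_apply, mul_assoc, mul_add]
  r_mul := by intro a b v; simp [LinearMap.mk₂_apply, mul_assoc, add_mul]
  l_r := by intro a b v; simp [LinearMap.mk₂_apply, mul_assoc, add_mul, mul_add]
  continuous_l := by
    simp only [LinearMap.mk₂_apply]
    fun_prop
  continuous_r := by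
    simp only [LinearMap.mk₂_apply]
    fun_prop

/-- the bidimension -/
noncomputable def db [IsTopologicalRing A] [ContinuousSMul ℂ A] : ℕ∞ := (unitization A).dh

end Bi

section Manifold

variable (n : ℕ) (S : Type) [TopologicalSpace S] [ChartedSpace (EuclideanSpace ℂ (Fin n)) S]

/-- the algebra `𝓞(S)` of holomorphic functions on `S`, with the compact-open topology (as a
subspace of the space `C(S, ℂ)` of continuous functions) -/
def Hol : Subalgebra ℂ C(S, ℂ) where
  carrier := {f | MDifferentiable 𝓘(ℂ, EuclideanSpace ℂ (Fin n)) 𝓘(ℂ, ℂ) f}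
  mul_mem' := by
    intro f g hf hg
    exact MDifferentiable.mul hf hg
  add_mem' := by
    intro f g hf hg
    exact MDifferentiable.add hf hg
  algebraMap_mem' := by
    intro c
    exact mdifferentiable_const

/-- `𝓞(S)` is a topological algebra -/
instance : IsTopologicalRing (Hol n S) :=
  haveI := ChartedSpace.locallyCompactSpace (EuclideanSpace ℂ (Fin n)) S
  IsTopologicalSemiring.toIsTopologicalRing (R := Hol n S) inferInstance

/-- the derivative `d f (v)` at `x` of a holomorphic function `f` in the direction `v` -/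
noncomputable def differential (x : S) (v : EuclideanSpace ℂ (Fin n)) (f : Hol n S) : ℂ :=
  mfderiv 𝓘(ℂ, EuclideanSpace ℂ (Fin n)) 𝓘(ℂ, ℂ) (f : C(S, ℂ)) x v

/-- There are `n` global holomorphic functions on `S` whose differentials at `x` are linearly
independent (so they are local coordinates at `x`). -/
def GlobalCoordinatesAt (x : S) : Prop :=
  ∃ f : Fin n → Hol n S, ∀ c : Fin n → ℂ,
    (∀ v : EuclideanSpace ℂ (Fin n), ∑ i, c i • differential n S x v (f i) = 0) → c = 0

end Manifold

end Pool.Agent.Helper39.ST
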