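import Pool.Agent.Helper39.ST.Bi

/-!
The evaluation and the derivatives at a point are continuous on the algebra of holomorphic
functions.
-/

set_option autoImplicit false

open scoped Manifold ContDiff Topology

namespace Pool.Agent.Helper39.ST

variable {n : ℕ} {S : Type} [TopologicalSpace S] [ChartedSpace (EuclideanSpace ℂ (Fin n)) S]

theorem hol_mdiff (f : Hol n S) :
    MDifferentiable 𝓘(ℂ, EuclideanSpace ℂ (Fin n)) 𝓘(ℂ, ℂ) (f : C(S, ℂ)) := f.2

/-- evaluation at a point -/
noncomputable def evalAt (x : S) : Hol n S →L[ℂ] ℂ where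
  toFun f := (f : C(S, ℂ)) x
  map_add' _ _ := rfl
  map_smul' _ _ := rfl
  cont := (continuous_eval_const x).comp continuous_subtype_val

theorem evalAt_mul (x : S) (f g : Hol n S) : evalAt x (f * g) = evalAt x f * evalAt x g := rfl

theorem differential_add (x : S) (v : EuclideanSpace ℂ (Fin n)) (f g : Hol n S) :
    differential n S x v (f + g) = differential n S x v f + differential n S x v g := by
  have h := mfderiv_add (hol_mdiff f x) (hol_mdiff g x)
  exact congrArg (fun L => L v) h

theorem differential_smul (x : S) (v : EuclideanSpace ℂ (Fin n)) (c : ℂ) (f : Hol n S) :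
    differential n S x v (c • f) = c • differential n S x v f := by
  have h := const_smul_mfderiv (hol_mdiff f x) c
  exact congrArg (fun L => L v) h

theorem differential_mul (x : S) (v : EuclideanSpace ℂ (Fin n)) (f g : Hol n S) :
    differential n S x v (f * g)
      = evalAt x f * differential n S x v g + differential n S x v f * evalAt x g := by
  have h := ((hol_mdiff f x).hasMFDerivAt.mul (hol_mdiff g x).hasMFDerivAt).mfderiv
  have h2 := congrArg (fun L => L v) h
  refine h2.trans ?_
  show evalAt x f * differential n S x v g + evalAt x g * differential n S x v f = _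
  ring

variable [IsManifold 𝓘(ℂ, EuclideanSpace ℂ (Fin n)) ω S]

theorem differentiableOn_chart (x : S) (f : Hol n S) :
    DifferentiableOn ℂ ((f : C(S, ℂ)) ∘ (chartAt (EuclideanSpace ℂ (Fin n)) x).symm)
      (chartAt (EuclideanSpace ℂ (Fin n)) x).target := by
  have : IsManifold 𝓘(ℂ, EuclideanSpace ℂ (Fin n)) 1 S :=
    IsManifold.of_le (n := ω) (by exact le_top)
  rw [← mdifferentiableOn_iff_differentiableOn]
  exact (hol_mdiff f).comp_mdifferentiableOn (mdifferentiableOn_atlas_symm (chart_mem_atlas _ x))

theorem differential_eq (x : S) (v : EuclideanSpace ℂ (Fin n)) (f : Hol n S) :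
    differential n S x v f = fderiv ℂ
      ((f : C(S, ℂ)) ∘ (chartAt (EuclideanSpace ℂ (Fin n)) x).symm)
      (chartAt (EuclideanSpace ℂ (Fin n)) x x) v := by
  rw [differential, (hol_mdiff f x).mfderiv]
  simp only [mfld_simps]
  rw [fderivWithin_univ]
  rfl

/-- Cauchy estimate for the derivative at a point -/
theorem exists_compact (x : S) (v : EuclideanSpace ℂ (Fin n)) :
    ∃ K : Set S, IsCompact K ∧ ∃ r : ℝ, 0 < r ∧ ∀ (f : Hol n S) (C : ℝ),
      (∀ y ∈ K, ‖(f : C(S, ℂ)) y‖ ≤ C) → ‖differential n S x v f‖ ≤ C / r := by
  set φ := chartAt (EuclideanSpace ℂ (Fin n)) x with hφ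
  set z := φ x with hz
  have hzt : z ∈ φ.target := φ.map_source (mem_chart_source _ x)
  -- the line through `z`
  have hline : Continuous fun t : ℂ => z + t • v := by fun_prop
  have hopen : IsOpen ((fun t : ℂ => z + t • v) ⁻¹' φ.target) := φ.open_target.preimage hline
  have h0 : (0 : ℂ) ∈ (fun t : ℂ => z + t • v) ⁻¹' φ.target := by simpa using hzt
  obtain ⟨R, hR, hball⟩ := Metric.isOpen_iff.mp hopen 0 h0
  have hR2 : Metric.closedBall (0 : ℂ) (R / 2) ⊆ (fun t : ℂ => z + t • v) ⁻¹' φ.target :=
    (Metric.closedBall_subset_ball (by linarith)).trans hball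
  refine ⟨φ.symm '' ((fun t : ℂ => z + t • v) '' Metric.closedBall 0 (R / 2)), ?_, R / 2,
    by positivity, ?_⟩
  · refine ((isCompact_closedBall 0 (R / 2)).image hline).image_of_continuousOn ?_
    refine φ.continuousOn_symm.mono ?_
    rintro _ ⟨t, ht, rfl⟩
    exact hR2 ht
  · intro f C hC
    have hF := differentiableOn_chart x f
    set F : EuclideanSpace ℂ (Fin n) → ℂ := (f : C(S, ℂ)) ∘ φ.symm with hFdef
    have hd : DifferentiableAt ℂ F z := hF.differentiableAt (φ.open_target.mem_nhds hzt)
    have hlined : ∀ t : ℂ, HasDerivAt (fun t : ℂ => z + t • v) v t := by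
      intro t
      simpa using ((hasDerivAt_id t).smul_const v).const_add z
    have hderiv : deriv (fun t : ℂ => F (z + t • v)) 0 = fderiv ℂ F z v := by
      have h1 : HasDerivAt (fun t : ℂ => F (z + t • v)) (fderiv ℂ F z v) 0 := by
        have h2 : HasFDerivAt F (fderiv ℂ F z) (z + (0:ℂ) • v) := by simpa using hd.hasFDerivAt
        exact h2.comp_hasDerivAt (0:ℂ) (hlined 0)
      exact h1.deriv
    rw [differential_eq, ← hderiv]
    refine Complex.norm_deriv_le_of_forall_mem_sphere_norm_le (by positivity) ?_ ?_
    · refine DifferentiableOn.diffContOnCl ?_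
      refine DifferentiableOn.mono ?_ Metric.closure_ball_subset_closedBall
      refine hF.comp (fun t _ => (hlined t).differentiableAt.differentiableWithinAt) ?_
      intro t ht
      exact hR2 ht
    · intro t ht
      exact hC _ ⟨_, ⟨t, Metric.sphere_subset_closedBall ht, rfl⟩, rfl⟩

theorem continuous_differential (x : S) (v : EuclideanSpace ℂ (Fin n)) :
    Continuous fun f : Hol n S => differential n S x v f := by
  have : IsTopologicalAddGroup (Hol n S) :=
    @IsTopologicalRing.to_topologicalAddGroup (Hol n S) _ _ _
  let L : Hol n S →+ ℂ :=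
    { toFun := fun f => differential n S x v f
      map_zero' := by
        have := differential_smul x v 0 (0 : Hol n S)
        simpa using this
      map_add' := differential_add x v }
  refine (continuous_of_continuousAt_zero L ?_ : Continuous L)
  obtain ⟨K, hK, r, hr, h⟩ := exists_compact x v
  rw [Metric.continuousAt_iff']
  intro ε hε
  have hopen : IsOpen {f : Hol n S | Set.MapsTo (f : C(S, ℂ)) K (Metric.ball 0 (ε / 2 * r))} :=
    (ContinuousMap.isOpen_setOfPred_mapsTo hK Metric.isOpen_ball).preimage continuous_subtype_val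
  filter_upwards [hopen.mem_nhds (show (0 : Hol n S) ∈ _ from fun y _ => by
    show ((0 : ℂ)) ∈ Metric.ball 0 (ε / 2 * r)
    exact Metric.mem_ball_self (by positivity))] with f hf
  have h1 : ‖differential n S x v f‖ ≤ (ε / 2 * r) / r := by
    refine h f _ fun y hy => ?_
    have := hf hy
    rw [mem_ball_zero_iff] at this
    exact this.le
  rw [mul_div_cancel_right₀ _ hr.ne'] at h1
  rw [map_zero, dist_zero_right]
  exact h1.trans_lt (by linarith)

/-- the derivative at a point as a continuous functional -/
noncomputable def der (x : S) (v : EuclideanSpace ℂ (Fin n)) : Hol n S →L[ℂ] ℂ where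
  toFun f := differential n S x v f
  map_add' := differential_add x v
  map_smul' := differential_smul x v
  cont := continuous_differential x v

end Pool.Agent.Helper39.ST
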