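import Mathlib

/-!
Koszul elements in an exact complex with commuting operators.
-/

set_option autoImplicit false

namespace Pool.Agent.Helper39.ST

open Finset

/-- the alternating sum `∑_j (-1)^j T (a j) (F (a without j))` -/
def bd {J P : Type*} [AddCommGroup P] (T : J → P →+ P) {k : ℕ} (F : (Fin k → J) → P)
    (a : Fin (k + 1) → J) : P :=
  ∑ j : Fin (k + 1), (-1 : ℤ) ^ (j : ℕ) • T (a j) (F (j.removeNth a))

/-- `∂ ∂ = 0` for commuting operators -/
theorem bd_bd {J P : Type*} [AddCommGroup P] (T : J → P →+ P)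
    (hT : ∀ i j p, T i (T j p) = T j (T i p)) {k : ℕ} (F : (Fin k → J) → P)
    (v : Fin (k + 2) → J) : bd T (bd T F) v = 0 := by
  have key : bd T (bd T F) v = ∑ i : Fin (k + 1), ∑ j ≥ i, (-1 : ℤ) ^ (i + j : ℕ) •
      (T (v i.castSucc) (T (v j.succ) (F (j.removeNth <| i.castSucc.removeNth v))) -
        T (v j.succ) (T (v i.castSucc) (F (j.removeNth <| i.castSucc.removeNth v)))) := by
    simp only [bd, map_sum, map_zsmul, Finset.smul_sum, Fin.sum_sum_eq_sum_triangle_add,
      Fin.val_castSucc, Fin.val_succ]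
    refine Fintype.sum_congr _ _ fun i ↦ Finset.sum_congr rfl fun j hj ↦ ?_
    rw [Finset.mem_Ici] at hj
    have H₁ : i.castSucc.removeNth v j = v j.succ := by
      simp [Fin.removeNth_apply, Fin.succAbove_of_le_castSucc, hj]
    have H₂ : j.succ.removeNth v i = v i.castSucc := by
      simp [Fin.removeNth_apply, Fin.succAbove_of_castSucc_lt, hj]
    simp only [pow_add, mul_smul, pow_one, neg_one_smul, smul_neg, smul_sub, ← sub_eq_add_neg,
      smul_comm ((-1 : ℤ) ^ (j : ℕ)), H₁, H₂]
    congr 6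
    rw [Fin.removeNth_removeNth_eq_swap]
    simp [Fin.predAbove, hj, Fin.succAbove]
  rw [key]
  refine Finset.sum_eq_zero fun i _ => Finset.sum_eq_zero fun j _ => ?_
  rw [hT, sub_self, smul_zero]

/-- Koszul elements over a given augmented exact complex, and the value of the iterated connecting
functionals on them -/
theorem koszul {J X : Type*} (P : ℕ → Type*) [∀ i, AddCommGroup (P i)] [AddCommGroup X]
    (d : ∀ i, P (i + 1) →+ P i) (aug : P 0 →+ X)
    (ex0 : ∀ p, aug p = 0 → ∃ q, d 0 q = p)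
    (ex : ∀ i p, d i p = 0 → ∃ q, d (i + 1) q = p)
    (T : ∀ i, J → P i →+ P i) (hT : ∀ i a b p, T i a (T i b p) = T i b (T i a p))
    (hd : ∀ i a p, d i (T (i + 1) a p) = T i a (d i p))
    (haug : ∀ a p, aug (T 0 a p) = 0)
    (e g : ∀ i, P i →+ ℂ) (D : ℕ → J → ℂ)
    (he : ∀ i q, e (i + 1) q = g i (d i q))
    (hg : ∀ i a p, g i (T i a p) = D i a * e i p)
    (p0 : P 0) (hp0 : e 0 p0 = 1) (k : ℕ) :
    ∃ F : (Fin k → J) → P k, (∃ G : (Fin (k + 1) → J) → P (k + 1), ∀ a, d k (G a) = bd (T k) F a) ∧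
      ∀ a, e k (F a) = Matrix.det (Matrix.of fun r c : Fin k => D (k - 1 - r) (a c)) := by
  induction k with
  | zero =>
    refine ⟨fun _ => p0, ?_, fun a => by simp [hp0]⟩
    have : ∀ a : Fin 1 → J, ∃ q, d 0 q = bd (T 0) (fun _ : Fin 0 → J => p0) a := by
      intro a
      refine ex0 _ ?_
      simp [bd, haug]
    choose G hG using this
    exact ⟨G, hG⟩
  | succ k ih =>
    obtain ⟨F, ⟨G, hG⟩, hF⟩ := ih
    refine ⟨G, ?_, ?_⟩
    · have : ∀ a : Fin (k + 2) → J, ∃ q, d (k + 1) q = bd (T (k + 1)) G a := by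
        intro a
        refine ex k _ ?_
        have h1 : d k (bd (T (k + 1)) G a) = bd (T k) (bd (T k) F) a := by
          simp only [bd, map_sum, map_zsmul, hd, hG]
        rw [h1, bd_bd _ (hT k)]
      choose G' hG' using this
      exact ⟨G', hG'⟩
    · intro a
      rw [he, hG, Matrix.det_succ_row_zero]
      simp only [bd, map_sum, map_zsmul, hg, hF]
      refine Finset.sum_congr rfl fun j _ => ?_
      have h2 : (Matrix.of fun r c : Fin (k + 1) => D (k + 1 - 1 - r) (a c)).submatrix Fin.succ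
          j.succAbove = Matrix.of fun r c : Fin k => D (k - 1 - r) (j.removeNth a c) := by
        ext r c
        simp only [Matrix.submatrix_apply, Matrix.of_apply, Fin.val_succ, Fin.removeNth_apply]
        congr 1
        omega
      rw [h2]
      simp only [Matrix.of_apply, Fin.val_zero, zsmul_eq_mul]
      push_cast
      rw [Nat.sub_zero]
      ring

end Pool.Agent.Helper39.ST
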