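import Pool.Agent.Helper39.ST.Defs
import Pool.Agent.Helper39.ST.Koszul

/-!
Lower bounds for homological dimensions of commutative topological algebras from point derivations.
-/

set_option autoImplicit false

open scoped Topology

namespace Pool.Agent.Helper39.ST

theorem polynormed_prod {V W : Type} [AddCommGroup V] [Module ℂ V] [TopologicalSpace V]
    [IsTopologicalAddGroup V] [ContinuousSMul ℂ V] [AddCommGroup W] [Module ℂ W]
    [TopologicalSpace W] [IsTopologicalAddGroup W] [ContinuousSMul ℂ W]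
    (hV : IsPolynormedSpace V) (hW : IsPolynormedSpace W) : IsPolynormedSpace (V × W) := by
  obtain ⟨h1, h2, h3⟩ := hV
  obtain ⟨k1, k2, k3⟩ := hW
  refine ⟨inferInstance, ?_, ?_⟩
  · exact Prod.locallyConvexSpace
  · let uV : UniformSpace V := IsTopologicalAddGroup.rightUniformSpace V
    let uW : UniformSpace W := IsTopologicalAddGroup.rightUniformSpace W
    have : IsUniformAddGroup V := isUniformAddGroup_of_addCommGroup
    have : IsUniformAddGroup W := isUniformAddGroup_of_addCommGroup
    have : CompleteSpace V := h3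
    have : CompleteSpace W := k3
    have h4 : IsTopologicalAddGroup.rightUniformSpace (V × W) = (inferInstance : UniformSpace (V × W)) :=
      IsUniformAddGroup.rightUniformSpace_eq
    rw [h4]
    infer_instance

theorem polynormed_complex : IsPolynormedSpace ℂ := by
  refine ⟨inferInstance, inferInstance, ?_⟩
  have h4 : IsTopologicalAddGroup.rightUniformSpace ℂ = (inferInstance : UniformSpace ℂ) :=
      IsUniformAddGroup.rightUniformSpace_eq
  rw [h4]
  infer_instance

section Left

variable {A : Type} [CommRing A] [Algebra ℂ A] [TopologicalSpace A]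

/-- the one-dimensional module of a continuous character -/
noncomputable def charMod (ε : A →L[ℂ] ℂ) (hε : ∀ a b, ε (a * b) = ε a * ε b) : LeftMod A where
  V := ℂ
  act := LinearMap.mk₂ ℂ (fun a v => ε a * v)
    (by intro a b v; rw [map_add, add_mul])
    (by intro c a v; rw [map_smul, smul_eq_mul, smul_eq_mul, mul_assoc])
    (by intro a v w; rw [mul_add])
    (by intro c a v; rw [smul_eq_mul, smul_eq_mul]; ring)
  act_mul := by intro a b v; simp only [LinearMap.mk₂_apply, hε, mul_assoc]
  continuous_act := by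
    simp only [LinearMap.mk₂_apply]
    fun_prop

/-- the extension of `P` by the character `ε`, defined by a point derivation -/
noncomputable def extMod (ε D : A →L[ℂ] ℂ) (hε : ∀ a b, ε (a * b) = ε a * ε b)
    (hD : ∀ a b, D (a * b) = ε a * D b + D a * ε b) (P : LeftMod A) (e : P.V →L[ℂ] ℂ)
    (he : ∀ a p, e (P.act a p) = ε a * e p) : LeftMod A where
  V := ℂ × P.V
  act := LinearMap.mk₂ ℂ (fun a v => (ε a * v.1 + D a * e v.2, P.act a v.2))
    (by intro a b v; ext <;> simp; ring)
    (by intro c a v; ext <;> simp; ring)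
    (by intro a v w; ext <;> simp; ring)
    (by intro c a v; ext <;> simp; ring)
  act_mul := by
    intro a b v
    simp only [LinearMap.mk₂_apply, hε, hD, he, P.act_mul]
    ext
    · ring
    · rfl
  continuous_act := by
    simp only [LinearMap.mk₂_apply]
    refine Continuous.prodMk (by fun_prop) ?_
    exact P.continuous_act.comp (continuous_fst.prodMk (continuous_snd.comp continuous_snd))

/-- lifting a functional through a point derivation -/
theorem step_left (ε D : A →L[ℂ] ℂ) (hε : ∀ a b, ε (a * b) = ε a * ε b)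
    (hD : ∀ a b, D (a * b) = ε a * D b + D a * ε b) (P : LeftMod A) (hP : P.IsPolynormed)
    (hP' : P.IsProjective) (e : P.V →L[ℂ] ℂ) (he : ∀ a p, e (P.act a p) = ε a * e p) :
    ∃ g : P.V →L[ℂ] ℂ, ∀ a p, g (P.act a p) = ε a * g p + D a * e p := by
  obtain ⟨t, ht, ht'⟩ := hP' (extMod ε D hε hD P e he) (polynormed_prod polynormed_complex hP)
    (ContinuousLinearMap.snd ℂ ℂ P.V) (fun a x => rfl) ⟨ContinuousLinearMap.inr ℂ ℂ P.V, fun p => rfl⟩
  refine ⟨(ContinuousLinearMap.fst ℂ ℂ P.V).comp t, fun a p => ?_⟩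
  have h1 := congrArg Prod.fst (ht a p)
  have h2 : (t p).2 = p := ht' p
  have h3 : (t (P.act a p)).1 = ε a * (t p).1 + D a * e (t p).2 := h1
  rw [h2] at h3
  exact h3

theorem left_lower (ε : A →L[ℂ] ℂ) (hε : ∀ a b, ε (a * b) = ε a * ε b) (D : ℕ → A →L[ℂ] ℂ)
    (hD : ∀ i a b, D i (a * b) = ε a * D i b + D i a * ε b) {n : ℕ} (a : Fin n → A)
    (ha : ∀ j, ε (a j) = 0)
    (hdet : (Matrix.of fun r c : Fin n => D (n - 1 - r) (a c)).det ≠ 0) (m : ℕ)
    (h : (charMod ε hε).HasResolution m) : n ≤ m := by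
  by_contra hlt
  push Not at hlt
  obtain ⟨P, aug, d, s', s, hP, haug, hd, hdd0, hdd, hs', hs0, hs, hlen⟩ := h
  let aug' : (P 0).V →L[ℂ] ℂ := aug
  have haug' : ∀ a p, aug' ((P 0).act a p) = ε a * aug' p := fun a p => haug a p
  -- the functionals
  let E : ℕ → Type := fun i => {e : (P i).V →L[ℂ] ℂ //
    (∀ a p, e ((P i).act a p) = ε a * e p) ∧ ∀ q, e (d i q) = 0}
  let G : ∀ i (x : E i), (P i).V →L[ℂ] ℂ := fun i x =>
    Classical.choose (step_left ε (D i) hε (hD i) (P i) (hP i).1 (hP i).2 x.1 x.2.1)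
  have hG : ∀ i (x : E i), ∀ a p, G i x ((P i).act a p) = ε a * G i x p + D i a * x.1 p :=
    fun i x => Classical.choose_spec
      (step_left ε (D i) hε (hD i) (P i) (hP i).1 (hP i).2 x.1 x.2.1)
  let e0 : E 0 := ⟨aug', haug', fun q => hdd0 q⟩
  let eS : ∀ i, E i → E (i + 1) := fun i x => ⟨(G i x).comp (d i), by
    refine ⟨fun a p => ?_, fun q => ?_⟩
    · show G i x (d i _) = _ * G i x (d i p)
      rw [hd i a p, hG, x.2.2, mul_zero, add_zero]
    · show G i x (d i (d (i + 1) q)) = 0
      rw [hdd, map_zero]⟩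
  let e : ∀ i, E i := fun i => Nat.rec e0 eS i
  have hexact0 : ∀ p, aug p = 0 → ∃ q, d 0 q = p := fun p hp =>
    ⟨s 0 p, by have := hs0 p; rwa [hp, map_zero, add_zero] at this⟩
  have hexact : ∀ i p, d i p = 0 → ∃ q, d (i + 1) q = p := fun i p hp =>
    ⟨s (i + 1) p, by have := hs i p; rwa [hp, map_zero, add_zero] at this⟩
  obtain ⟨F, -, hF⟩ := koszul (J := Fin n) (X := ℂ) (fun i => (P i).V)
    (fun i => (d i).toLinearMap.toAddMonoidHom) aug.toLinearMap.toAddMonoidHom hexact0 hexact
    (fun i j => ((P i).act (a j)).toAddMonoidHom)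
    (fun i j k p => by
      show (P i).act (a j) ((P i).act (a k) p) = (P i).act (a k) ((P i).act (a j) p)
      rw [← (P i).act_mul, ← (P i).act_mul, mul_comm])
    (fun i j p => hd i (a j) p)
    (fun j p => by
      show aug' ((P 0).act (a j) p) = 0
      rw [haug', ha, zero_mul])
    (fun i => (e i).1.toLinearMap.toAddMonoidHom) (fun i => (G i (e i)).toLinearMap.toAddMonoidHom)
    (fun i j => D i (a j))
    (fun i q => rfl)
    (fun i j p => by
      show G i (e i) ((P i).act (a j) p) = _
      rw [hG, ha, zero_mul, zero_add]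
      rfl)
    (s' (1 : ℂ)) (hs' (1 : ℂ)) n
  have h1 := hF id
  have := hlen n hlt
  have h2 : F id = 0 := Subsingleton.elim _ _
  rw [h2, map_zero] at h1
  exact hdet h1.symm

end Left

end Pool.Agent.Helper39.ST
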