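import Pool.Agent.Helper39.ST.Hol

/-!
Lower bounds for the homological dimensions of the algebra of holomorphic functions.
-/

set_option autoImplicit false

open scoped Manifold ContDiff Topology

namespace Pool.Agent.Helper39.ST

theorem le_dh_left {A : Type} [Ring A] [Algebra ℂ A] [TopologicalSpace A] (X : LeftMod A) (n : ℕ)
    (h : ∀ m, X.HasResolution m → n ≤ m) : (n : ℕ∞) ≤ X.dh := by
  refine le_sInf ?_
  rintro _ ⟨k, rfl, hk⟩
  exact_mod_cast h k hk

theorem le_dh_bi {A : Type} [Ring A] [Algebra ℂ A] [TopologicalSpace A] (X : BiMod A) (n : ℕ)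
    (h : ∀ m, X.HasResolution m → n ≤ m) : (n : ℕ∞) ≤ X.dh := by
  refine le_sInf ?_
  rintro _ ⟨k, rfl, hk⟩
  exact_mod_cast h k hk

theorem charMod_irreducible {A : Type} [CommRing A] [Algebra ℂ A] [TopologicalSpace A]
    (ε : A →L[ℂ] ℂ) (hε : ∀ a b, ε (a * b) = ε a * ε b) (h1 : ε 1 = 1) :
    (charMod ε hε).IsIrreducible := by
  refine ⟨⟨1, (1 : ℂ), ?_⟩, fun W _ => ?_⟩
  · show ε 1 * (1 : ℂ) ≠ 0
    rw [h1]
    norm_num
  · exact eq_bot_or_eq_top (α := Submodule ℂ ℂ) W

/-- the abstract lower bound for a commutative topological algebra with a continuous character and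
point derivations -/
theorem abstract_lower {A : Type} [CommRing A] [Algebra ℂ A] [TopologicalSpace A]
    [IsTopologicalRing A] [ContinuousSMul ℂ A]
    (ε : A →L[ℂ] ℂ) (hε : ∀ a b, ε (a * b) = ε a * ε b) (h1 : ε 1 = 1) (D : ℕ → A →L[ℂ] ℂ)
    (hD : ∀ i a b, D i (a * b) = ε a * D i b + D i a * ε b) {n : ℕ} (f : Fin n → A)
    (hdet : (Matrix.of fun r c : Fin n => D (n - 1 - r) (f c)).det ≠ 0) :
    (n : ℕ∞) ≤ ds A ∧ ds A ≤ dg A ∧ (n : ℕ∞) ≤ db A := by
  have hD1 : ∀ i, D i 1 = 0 := by
    intro i
    have h2 := hD i 1 1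
    rw [mul_one, h1, one_mul, mul_one] at h2
    linear_combination -h2
  refine ⟨?_, ?_, ?_⟩
  · have hirr := charMod_irreducible ε hε h1
    have hpol : (charMod ε hε).IsPolynormed := polynormed_complex
    have hdh : (n : ℕ∞) ≤ (charMod ε hε).dh := by
      refine le_dh_left _ n ?_
      refine left_lower ε hε D hD (fun j => f j - ε (f j) • (1 : A)) (fun j => ?_) ?_
      · rw [map_sub, map_smul, h1, smul_eq_mul, mul_one, sub_self]
      · have h3 : (Matrix.of fun r c : Fin n => D (n - 1 - r) (f c - ε (f c) • (1 : A)))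
            = Matrix.of fun r c : Fin n => D (n - 1 - r) (f c) := by
          ext r c
          simp only [Matrix.of_apply]
          rw [map_sub, map_smul, hD1, smul_zero, sub_zero]
        rw [h3]
        exact hdet
    exact hdh.trans (le_iSup (fun X : {X : LeftMod A // X.IsPolynormed ∧ X.IsIrreducible} =>
      X.1.dh) ⟨charMod ε hε, hpol, hirr⟩)
  · refine iSup_le fun X => ?_
    exact le_iSup (fun X : {X : LeftMod A // X.IsPolynormed} => X.1.dh) ⟨X.1, X.2.1⟩
  · exact le_dh_bi _ n (bi_lower ε hε D hD f hdet)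

variable {n : ℕ} {S : Type} [TopologicalSpace S] [ChartedSpace (EuclideanSpace ℂ (Fin n)) S]
  [IsManifold 𝓘(ℂ, EuclideanSpace ℂ (Fin n)) ω S]

/-- the sequence of derivations used for the Koszul elements -/
noncomputable def ders (x : S) (i : ℕ) : Hol n S →L[ℂ] ℂ :=
  if h : n - 1 - i < n then der x (EuclideanSpace.single ⟨n - 1 - i, h⟩ 1) else 0

theorem ders_mul (x : S) (i : ℕ) (a b : Hol n S) :
    ders x i (a * b) = evalAt x a * ders x i b + ders x i a * evalAt x b := by
  unfold ders
  split_ifs with h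
  · exact differential_mul x _ a b
  · simp

theorem differential_eq_sum (x : S) (v : EuclideanSpace ℂ (Fin n)) (f : Hol n S) :
    differential n S x v f = ∑ i, v i * differential n S x (EuclideanSpace.single i 1) f := by
  have h : ∀ w : EuclideanSpace ℂ (Fin n), differential n S x w f = fderiv ℂ
      ((f : C(S, ℂ)) ∘ (chartAt (EuclideanSpace ℂ (Fin n)) x).symm)
      (chartAt (EuclideanSpace ℂ (Fin n)) x x) w := fun w => differential_eq x w f
  simp only [h]
  conv_lhs => rw [show v = ∑ i, v i • EuclideanSpace.single i (1 : ℂ) from by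
    ext j
    simp [Pi.single_apply]]
  rw [map_sum]
  refine Finset.sum_congr rfl fun i _ => ?_
  rw [map_smul, smul_eq_mul]

theorem det_ne_zero (x : S) (f : Fin n → Hol n S) (hf : ∀ c : Fin n → ℂ,
    (∀ v : EuclideanSpace ℂ (Fin n), ∑ i, c i • differential n S x v (f i) = 0) → c = 0)
    (a : Fin n → Hol n S) (ha : ∀ i v, differential n S x v (a i) = differential n S x v (f i)) :
    (Matrix.of fun r c : Fin n => ders x (n - 1 - r) (a c)).det ≠ 0 := by
  intro h0
  obtain ⟨c, hc, hc'⟩ := Matrix.exists_mulVec_eq_zero_iff.mpr h0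
  refine hc (hf c fun v => ?_)
  have h1 : ∀ r : Fin n, ∑ j, differential n S x (EuclideanSpace.single r 1) (f j) * c j = 0 := by
    intro r
    have h2 := congrFun hc' r
    simp only [Matrix.mulVec, dotProduct, Matrix.of_apply, Pi.zero_apply] at h2
    rw [← h2]
    refine Finset.sum_congr rfl fun j _ => ?_
    congr 1
    have h3 : n - 1 - (n - 1 - (r : ℕ)) = r := by omega
    have h4 : n - 1 - (n - 1 - (r : ℕ)) < n := by omega
    rw [ders, dif_pos h4, ← ha]
    show _ = differential n S x _ (a j)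
    congr 2
    exact Fin.ext h3.symm
  calc ∑ i, c i • differential n S x v (f i)
      = ∑ i, c i • ∑ r, v r * differential n S x (EuclideanSpace.single r 1) (f i) := by
        refine Finset.sum_congr rfl fun i _ => ?_
        rw [differential_eq_sum]
    _ = ∑ r, v r * ∑ i, differential n S x (EuclideanSpace.single r 1) (f i) * c i := by
        simp only [smul_eq_mul, Finset.mul_sum]
        rw [Finset.sum_comm]
        refine Finset.sum_congr rfl fun r _ => Finset.sum_congr rfl fun i _ => ?_
        ring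
    _ = 0 := by simp [h1]

theorem main (x : S) (h : GlobalCoordinatesAt n S x) :
    (n : ℕ∞) ≤ ds (Hol n S) ∧ ds (Hol n S) ≤ dg (Hol n S) ∧ (n : ℕ∞) ≤ db (Hol n S) := by
  obtain ⟨f, hf⟩ := h
  have hdet := det_ne_zero x f hf f fun i v => rfl
  exact abstract_lower (A := Hol n S) (evalAt x) (evalAt_mul x) rfl (ders x) (ders_mul x) f hdet

end Pool.Agent.Helper39.ST
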